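import Pool.Agent.Helper27.VF.Goals

set_option autoImplicit false

namespace Pool.Agent.Helper14.VF

open Pool.Agent.Helper27.VF

universe u

variable {A W : Type u} [Group A] [MulAction A W] {G G₀ : SimpleGraph W} {w : W}
  {p : Ultrafilter W} {k : ℕ}

theorem smul_inj (h : Stg A G G₀ w p) (x : W) {a b : A} (e : a • x = b • x) : a = b := by
  have h1 : (b⁻¹ * a) • x = x := by
    rw [mul_smul, e, inv_smul_smul]
  have h2 := h.free _ _ h1
  have h3 : b * (b⁻¹ * a) = b * 1 := by rw [h2]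
  rwa [mul_inv_cancel_left, mul_one] at h3

theorem dist_smul_le (h : Stg A G G₀ w p) (a : A) (x y : W) :
    G₀.dist (a • x) (a • y) ≤ G₀.dist x y := by
  obtain ⟨q, hq⟩ := (h.conn x y).exists_walk_length_eq_dist
  let f : G₀ →g G₀ := ⟨fun z => a • z, fun {u v} huv => h.inv₀ a u v huv⟩
  have h1 := SimpleGraph.dist_le (q.map f)
  rw [SimpleGraph.Walk.length_map, hq] at h1
  exact h1

/-- Elements which move a point into a finite set: finitely many. -/
theorem fin_smul (h : Stg A G G₀ w p) (x : W) {S : Set W} (hS : S.Finite) :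
    {a : A | a • x ∈ S}.Finite := by
  have hinj : Function.Injective (fun a : A => a • x) := fun a b e => smul_inj h x e
  exact hS.preimage hinj.injOn

/-- Elements whose inverse moves a point into a finite set: finitely many. -/
theorem fin_inv_smul (h : Stg A G G₀ w p) (x : W) {S : Set W} (hS : S.Finite) :
    {a : A | a⁻¹ • x ∈ S}.Finite := by
  have hinj : Function.Injective (fun a : A => a⁻¹ • x) := fun a b e =>
    inv_injective (smul_inj h x e)
  exact hS.preimage hinj.injOn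

/-- LOC. -/
theorem loc (h1 : FacStmt.{u}) (h2 : ChnStmt.{u}) (h3 : LimStmt.{u}) : LocStmt.{u} := by
  intro A W _ _ G G₀ w p hS k hk
  obtain ⟨-, hball, -⟩ := h1 A W G G₀ w p hS
  obtain ⟨c₀, hc₀⟩ := h2 A W G G₀ w p hS k
  have hlim := h3 A W G G₀ w p hS k hk
  -- the finite set of representatives
  have hH : {a : A | a • w ∈ {y | G₀.dist w y ≤ c₀}}.Finite := fin_smul hS w (hball w c₀)
  let 𝓕 : Set (Set W × Set W) :=
    ⋃ a ∈ {a : A | a • w ∈ {y | G₀.dist w y ≤ c₀}},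
      {c | c ∈ SS A G p k ∧ (1 : A) • w ∈ c.1 ∧ a • w ∈ c.2}
  have h𝓕 : 𝓕.Finite := hH.biUnion fun a _ => hlim 1 a
  have h𝓕S : ∀ f ∈ 𝓕, f ∈ SS A G p k := by
    intro f hf
    obtain ⟨a, ha, hf'⟩ := Set.mem_iUnion₂.1 hf
    exact hf'.1
  have hrep : ∀ c ∈ SS A G p k, ∃ f ∈ 𝓕, ∃ g : A, c = tr g f := by
    intro c hc
    obtain ⟨hcut, hcard, a, b, hdis⟩ := hc
    obtain ⟨g, h, hg, hh, hd⟩ := hc₀ c hcut hcard.le a b hdis
    refine ⟨tr g⁻¹ c, ?_, g, ?_⟩
    · refine Set.mem_iUnion₂.2 ⟨g⁻¹ * h, ?_, ?_, ?_, ?_⟩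
      · have e := dist_smul_le hS g⁻¹ (g • w) (h • w)
        rw [inv_smul_smul, ← mul_smul] at e
        exact e.trans hd
      · exact SS.tr hS ⟨hcut, hcard, a, b, hdis⟩ g⁻¹
      · change g⁻¹⁻¹ • (1 : A) • w ∈ c.1
        rw [inv_inv, one_smul]
        exact hg
      · change g⁻¹⁻¹ • (g⁻¹ * h) • w ∈ c.2
        rw [inv_inv, mul_smul, smul_inv_smul]
        exact hh
    · rw [tr_tr, mul_inv_cancel, tr_one]
  refine ⟨fun v => ?_, 𝓕, h𝓕, hrep⟩
  have hsub : {c | c ∈ SS A G p k ∧ v ∈ sep c} ⊆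
      ⋃ f ∈ 𝓕, (fun g : A => tr g f) '' {g : A | g⁻¹ • v ∈ sep f} := by
    rintro c ⟨hc, hv⟩
    obtain ⟨f, hf, g, rfl⟩ := hrep c hc
    refine Set.mem_iUnion₂.2 ⟨f, hf, g, ?_, rfl⟩
    exact mem_sep_tr.1 hv
  refine Set.Finite.subset (h𝓕.biUnion fun f hf => ?_) hsub
  exact (fin_inv_smul hS v (h𝓕S f hf).1.fin).image _

end Pool.Agent.Helper14.VF
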